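import Pool.Agent.KS6_4.FT.Open

set_option autoImplicit false
set_option linter.style.haveILetI false

open scoped commutatorElement

namespace Pool.Agent.KS6_4.FT

open Pool.R699.TreeFT Pool.Agent.Results.MP_66c699_al.Torsion

variable {X : Type*} [DecidableEq X] [Fintype X] [Nonempty X] {D : ℕ}
  {P : Subgroup (Equiv.Perm {v : List X // v.length ≤ D})}

omit [DecidableEq X] in
/-- level stabilizers have finite index -/
theorem finiteIndex_of_St {G : Subgroup (treeAut X)} {n : ℕ} {H : Subgroup (treeAut X)}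
    (h1 : St G n ≤ H) {L : Subgroup (treeAut X)} (hL : L ≤ G) : (H.subgroupOf L).FiniteIndex := by
  have fin1 : Finite {v : List X // v.length ≤ n} := finite_words _
  have h2 : (((restr n).comp L.subtype).ker : Subgroup L) ≤ H.subgroupOf L := by
    intro x hx
    rw [Subgroup.mem_subgroupOf]
    apply h1
    rw [mem_St_iff]
    exact ⟨hL x.2, hx⟩
  have : (((restr n).comp L.subtype).ker : Subgroup L).FiniteIndex := inferInstance
  exact Subgroup.finiteIndex_of_le h2

/-- **Open subgroups of topologically finitely generated groups of finite type have finite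
abelianization.** -/
theorem fab (hD : 1 ≤ D) {Γ : Subgroup (treeAut X)} (hΓ : Γ.FG)
    (hΓG : Γ ≤ GP D P) (hdense : GP D P ≤ clS Γ) {n : ℕ} {H : Subgroup (treeAut X)}
    (h1 : St (GP D P) n ≤ H) (h2 : H ≤ GP D P) : (clS ⁅H, H⁆).relIndex H ≠ 0 := by
  obtain ⟨M, hM, hpow⟩ := opens hD P h1 h2
  set C : Subgroup (treeAut X) := clS ⁅H, H⁆ with hC
  have hcomm : ∀ a ∈ H, ∀ b ∈ H, ⁅a, b⁆ ∈ C := fun a ha b hb =>
    le_clS _ (Subgroup.commutator_mem_commutator ha hb)
  have hcl : clS C ≤ C := clS_clS _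
  set C' : Subgroup H := C.subgroupOf H with hC'
  have hn : C'.Normal := by
    refine ⟨fun c hc g => ?_⟩
    have e : g * c * g⁻¹ = ⁅g, c⁆ * c := by
      rw [commutatorElement_def]; group
    rw [e]
    refine C'.mul_mem ?_ hc
    rw [hC', Subgroup.mem_subgroupOf]
    exact hcomm _ g.2 _ c.2
  have hAcomm : ∀ a b : H ⧸ C', a * b = b * a := by
    intro a b
    obtain ⟨a, rfl⟩ := QuotientGroup.mk_surjective a
    obtain ⟨b, rfl⟩ := QuotientGroup.mk_surjective b
    rw [← QuotientGroup.mk_mul, ← QuotientGroup.mk_mul, QuotientGroup.eq,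
      hC', Subgroup.mem_subgroupOf]
    have h3 := hcomm _ (b⁻¹).2 _ (a⁻¹).2
    have e : (((a * b)⁻¹ * (b * a) : H) : treeAut X) = ⁅((b⁻¹ : H) : treeAut X), ((a⁻¹ : H) : treeAut X)⁆ := by
      rw [commutatorElement_def]
      push_cast
      group
    rw [e]
    exact h3
  have hAtor : ∀ a : H ⧸ C', a ^ M = 1 := by
    intro a
    obtain ⟨a, rfl⟩ := QuotientGroup.mk_surjective a
    rw [← QuotientGroup.mk_pow, QuotientGroup.eq_one_iff, hC', Subgroup.mem_subgroupOf]
    exact hpow _ a.2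
  -- the finitely generated subgroup
  have : Group.FG Γ := (Group.fg_iff_subgroup_fg Γ).2 hΓ
  have hfi : (H.subgroupOf Γ).FiniteIndex := finiteIndex_of_St h1 hΓG
  let φ : (H.subgroupOf Γ) →* H :=
    { toFun := fun x => ⟨x.1.1, x.2⟩
      map_one' := rfl
      map_mul' := fun _ _ => rfl }
  let ψ : (H.subgroupOf Γ) →* H ⧸ C' := (QuotientGroup.mk' C').comp φ
  have hR : Finite ψ.range := by
    letI : CommGroup ψ.range :=
      { (inferInstance : Group ψ.range) with
        mul_comm := fun a b => Subtype.ext (hAcomm _ _) }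
    have hfg : Group.FG ψ.range := Group.fg_range ψ
    refine CommGroup.finite_of_fg_isMulTorsion ψ.range ?_
    intro a
    rw [isOfFinOrder_iff_pow_eq_one]
    exact ⟨M, hM, Subtype.ext (hAtor _)⟩
  have hsurj : ∀ h : H, ∃ x : H.subgroupOf Γ, ψ x = QuotientGroup.mk' C' h := by
    intro h
    have hex : ∀ m : ℕ, ∃ x : H.subgroupOf Γ, ∀ v : List X, v.length ≤ m →
        act h.1 v = act x.1.1 v := by
      intro m
      obtain ⟨γ, hγ, h3⟩ := hdense (h2 h.2) (max m n)
      have h4 : γ⁻¹ * h.1 ∈ St (GP D P) n := by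
        refine ⟨(GP D P).mul_mem ((GP D P).inv_mem (hΓG hγ)) (h2 h.2), fun v hv => ?_⟩
        rw [act_mul, h3 v (by rw [hv]; exact le_max_right _ _), act_inv_act]
      have h5 : γ ∈ H := by
        have h6 := H.mul_mem h.2 (H.inv_mem (h1 h4))
        have e : h.1 * (γ⁻¹ * h.1)⁻¹ = γ := by group
        rwa [e] at h6
      exact ⟨⟨⟨γ, hγ⟩, h5⟩, fun v hv => h3 v (hv.trans (le_max_left _ _))⟩
    choose x hx using hex
    obtain ⟨r, hr⟩ := Finite.exists_infinite_fiber (fun m => ψ.rangeRestrict (x m))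
    have hinf : ((fun m => ψ.rangeRestrict (x m)) ⁻¹' {r}).Infinite := Set.infinite_coe_iff.1 hr
    obtain ⟨m0, hm0⟩ := hinf.nonempty
    refine ⟨x m0, ?_⟩
    have hψ : ∀ m ∈ ((fun m => ψ.rangeRestrict (x m)) ⁻¹' {r}), ψ (x m0) = ψ (x m) := by
      intro m hm
      have h3 : ψ.rangeRestrict (x m) = r := hm
      have h4 : ψ.rangeRestrict (x m0) = r := hm0
      exact congrArg Subtype.val (h4.trans h3.symm)
    change (QuotientGroup.mk (φ (x m0)) : H ⧸ C') = QuotientGroup.mk h
    rw [QuotientGroup.eq, hC', Subgroup.mem_subgroupOf]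
    apply hcl
    intro l
    obtain ⟨m, hm, hlm⟩ := hinf.exists_gt l
    have h5 : (QuotientGroup.mk (φ (x m0)) : H ⧸ C') = QuotientGroup.mk (φ (x m)) := hψ m hm
    rw [QuotientGroup.eq, hC', Subgroup.mem_subgroupOf] at h5
    refine ⟨_, h5, fun v hv => ?_⟩
    change act ((x m0).1.1⁻¹ * h.1) v = act ((x m0).1.1⁻¹ * (x m).1.1) v
    rw [act_mul, act_mul, hx m v (hv.trans hlm.le)]
  have hfin : Finite (H ⧸ C') := by
    have : Function.Surjective (fun r : ψ.range => (r.1 : H ⧸ C')) := by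
      intro a
      obtain ⟨h, rfl⟩ := QuotientGroup.mk_surjective a
      obtain ⟨x, hx⟩ := hsurj h
      exact ⟨⟨ψ x, x, rfl⟩, hx⟩
    exact Finite.of_surjective _ this
  exact Subgroup.index_ne_zero_of_finite

/-- `emb1` as a homomorphism -/
def emb1Hom (x : X) : treeAut X →* treeAut X where
  toFun := emb1 x
  map_one' := by
    have h := emb1_mul x (1 : treeAut X) 1
    rw [one_mul] at h
    exact (mul_eq_left.1 h.symm)
  map_mul' k l := emb1_mul x k l

/-- the automorphism `k` placed at the vertex `v` -/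
def embw : List X → (treeAut X →* treeAut X)
  | [] => MonoidHom.id _
  | (x :: w) => (emb1Hom x).comp (embw w)

omit [Fintype X] [Nonempty X] in
theorem embw_conj (v : List X) : ∀ (g k : treeAut X),
    g * embw v k * g⁻¹ = embw (act g v) (sec g v * k * (sec g v)⁻¹) := by
  induction v with
  | nil =>
    intro g k
    rw [act_nil, sec_nil]
    rfl
  | cons x w ih =>
    intro g k
    have e : embw (x :: w) k = emb1 x (embw w k) := rfl
    rw [e, emb1_conj, ih, act_cons, sec_sec]
    rfl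

omit [Fintype X] [Nonempty X] in
theorem embw_comm (v : List X) : ∀ (w : List X), v.length = w.length → v ≠ w →
    ∀ a b : treeAut X, embw v a * embw w b = embw w b * embw v a := by
  induction v with
  | nil =>
    intro w hw hne
    exact absurd (List.length_eq_zero_iff.1 hw.symm).symm hne
  | cons x v ih =>
    intro w hw hne a b
    cases w with
    | nil => simp at hw
    | cons y w =>
      have e1 : embw (x :: v) a = emb1 x (embw v a) := rfl
      have e2 : embw (y :: w) b = emb1 y (embw w b) := rfl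
      rw [e1, e2]
      by_cases hxy : x = y
      · subst hxy
        rw [← emb1_mul, ← emb1_mul, ih w (by simpa using hw) (fun h => hne (by rw [h]))]
      · rw [emb1, emb1, ← emb_mul, ← emb_mul]
        congr 1
        funext z
        by_cases h1 : z = x
        · have h2 : z ≠ y := fun h => hxy (h1.symm.trans h)
          simp [h1, hxy]
        · by_cases h2 : z = y
          · simp [h1]
          · simp [h1, h2]

theorem emb1_mem_K (hD : 1 ≤ D) (x : X) {k : treeAut X} (hk : k ∈ St (GP D P) (D - 1)) :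
    emb1 x k ∈ St (GP D P) (D - 1) := by
  refine St_anti (Nat.le_succ _) (emb_mem hD le_rfl fun y => ?_)
  split_ifs
  · exact hk
  · exact Subgroup.one_mem _

theorem embw_mem_K (hD : 1 ≤ D) (v : List X) {k : treeAut X} (hk : k ∈ St (GP D P) (D - 1)) :
    embw v k ∈ St (GP D P) (D - 1) := by
  induction v with
  | nil => exact hk
  | cons x w ih => exact emb1_mem_K hD x ih

theorem conj_comm {g c : treeAut X} (hg : g ∈ GP D P)
    (hc : c ∈ ⁅St (GP D P) (D - 1), St (GP D P) (D - 1)⁆) :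
    g * c * g⁻¹ ∈ ⁅St (GP D P) (D - 1), St (GP D P) (D - 1)⁆ := by
  have h1 : (St (GP D P) (D - 1)).map (MulAut.conj g).toMonoidHom ≤ St (GP D P) (D - 1) := by
    rintro _ ⟨k, hk, rfl⟩
    change g * k * g⁻¹ ∈ _
    rw [SetLike.mem_coe, mem_St_iff] at hk
    rw [mem_St_iff]
    refine ⟨(GP D P).mul_mem ((GP D P).mul_mem hg hk.1) ((GP D P).inv_mem hg), ?_⟩
    rw [map_mul, map_mul, map_inv, hk.2, mul_one, mul_inv_cancel]
  have h2 : g * c * g⁻¹ ∈ (⁅St (GP D P) (D - 1), St (GP D P) (D - 1)⁆).map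
      (MulAut.conj g).toMonoidHom := ⟨c, hc, rfl⟩
  rw [Subgroup.map_commutator] at h2
  exact Subgroup.commutator_mono h1 h1 h2

theorem down (hD : 1 ≤ D) (n : ℕ) : ∀ N : Subgroup (treeAut X),
    (∀ w : List X, w.length = n → ∀ c ∈ ⁅St (GP D P) (D - 1), St (GP D P) (D - 1)⁆,
      embw w c ∈ N) → ⁅St (GP D P) (D - 1 + n), St (GP D P) (D - 1 + n)⁆ ≤ N := by
  induction n with
  | zero =>
    intro N h c hc
    exact h [] rfl c hc
  | succ n ih =>
    intro N h
    rw [← add_assoc, comm_succ hD (Nat.le_add_right _ _), Subgroup.map_le_iff_le_comap,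
      Subgroup.pi_le_iff]
    intro x
    rw [Subgroup.map_le_iff_le_comap, Subgroup.comap_comap]
    have h2 : N.comap (embHom.comp (MonoidHom.mulSingle (fun _ : X => treeAut X) x)) =
        N.comap (emb1Hom x) := by
      congr 1
      ext1 k
      change emb (Pi.mulSingle x k) = emb (fun y => if y = x then k else 1)
      congr 1
      funext y
      rw [Pi.mulSingle_apply]
    rw [h2]
    refine ih _ fun w hw c hc => ?_
    rw [Subgroup.mem_comap]
    exact h (x :: w) (by simp [hw]) c hc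

/-- **Level-transitive topologically finitely generated groups of finite type are just infinite.** -/
theorem just_infinite (hD : 1 ≤ D) {Γ : Subgroup (treeAut X)} (hΓ : Γ.FG)
    (hΓG : Γ ≤ GP D P) (hdense : GP D P ≤ clS Γ)
    (htr : ∀ v w : List X, v.length = w.length → ∃ g ∈ GP D P, act g v = w)
    {N : Subgroup (treeAut X)} (hNG : N ≤ GP D P)
    (hnorm : ∀ g ∈ GP D P, ∀ ν ∈ N, g * ν * g⁻¹ ∈ N) (hcl : clS N ≤ N) (hne : N ≠ ⊥) :
    N.relIndex (GP D P) ≠ 0 := by
  obtain ⟨ν, hν, hν1⟩ : ∃ ν ∈ N, ν ≠ 1 := by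
    by_contra hcon
    push Not at hcon
    exact hne ((Subgroup.eq_bot_iff_forall N).2 hcon)
  obtain ⟨v, hv⟩ : ∃ v, act ν v ≠ v := by
    by_contra hcon
    push Not at hcon
    exact hν1 (act_ext hcon)
  set K := St (GP D P) (D - 1) with hK
  -- commutators at `v`
  have c1 : ∀ a ∈ K, ∀ b ∈ K, ⁅a, b⁆ ∈ N.comap (embw v) := by
    intro a ha b hb
    rw [Subgroup.mem_comap, map_commutatorElement]
    set x := embw v a with hx
    set z := embw v b with hz
    have hxG : x ∈ GP D P := (embw_mem_K hD v ha).1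
    have hzG : z ∈ GP D P := (embw_mem_K hD v hb).1
    have ht : x * ν * x⁻¹ * ν⁻¹ ∈ N := N.mul_mem (hnorm x hxG ν hν) (N.inv_mem hν)
    have hy := embw_conj v ν a⁻¹
    set y := embw (act ν v) (sec ν v * a⁻¹ * (sec ν v)⁻¹) with hydef
    rw [map_inv, ← hx] at hy
    have ht2 : x * ν * x⁻¹ * ν⁻¹ = x * y := by rw [← hy]; group
    rw [ht2] at ht
    have hyz : y * z = z * y := embw_comm _ _ (act_length ν v) hv _ _
    have h3 : (x * y) * (z * (x * y)⁻¹ * z⁻¹) ∈ N := N.mul_mem ht (hnorm z hzG _ (N.inv_mem ht))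
    have e : (x * y) * (z * (x * y)⁻¹ * z⁻¹) = ⁅x, z⁆ := by
      rw [commutatorElement_def]
      have h4 : y * z * y⁻¹ = z := by rw [hyz]; group
      calc (x * y) * (z * (x * y)⁻¹ * z⁻¹) = x * (y * z * y⁻¹) * x⁻¹ * z⁻¹ := by group
        _ = x * z * x⁻¹ * z⁻¹ := by rw [h4]
    rwa [e] at h3
  have c2 : ⁅K, K⁆ ≤ N.comap (embw v) := Subgroup.commutator_le.2 c1
  have c3 : ∀ w : List X, w.length = v.length → ∀ c ∈ ⁅K, K⁆, embw w c ∈ N := by
    intro w hw c hc
    obtain ⟨g, hg, hgv⟩ := htr v w hw.symm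
    have hs : (sec g v)⁻¹ ∈ GP D P := (GP D P).inv_mem (sec_mem hg v)
    have h4 := conj_comm hs hc
    rw [inv_inv] at h4
    have h5 := hnorm g hg _ (c2 h4)
    rw [embw_conj, hgv] at h5
    have e : sec g v * ((sec g v)⁻¹ * c * sec g v) * (sec g v)⁻¹ = c := by group
    rwa [e] at h5
  have c4 := down hD v.length N c3
  set H := St (GP D P) (D - 1 + v.length) with hH
  have hHG : H ≤ GP D P := fun g hg => hg.1
  have c5 : clS ⁅H, H⁆ ≤ N := (clS_mono c4).trans hcl
  have c6 := fab hD hΓ hΓG hdense (le_refl H) hHG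
  have c7 : H.relIndex (GP D P) ≠ 0 := (finiteIndex_of_St (le_refl H) le_rfl).index_ne_zero
  have c8 := Subgroup.relIndex_ne_zero_trans c6 c7
  exact fun h => c8 (Subgroup.relIndex_eq_zero_of_le_left c5 h)

end Pool.Agent.KS6_4.FT
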