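import Pool.Graph.R_seed8.Results.MP_66c699_al.Torsion

set_option autoImplicit false

namespace Pool.Agent.KS6_4.FT

open Pool.R699.TreeFT Pool.Agent.Results.MP_66c699_al.Torsion

variable {X : Type*}

/-- the closure of a subgroup, as a subgroup -/
def clS (L : Subgroup (treeAut X)) : Subgroup (treeAut X) where
  carrier := cl (L : Set (treeAut X))
  mul_mem' := by
    intro g h hg hh n
    obtain ⟨g', hg', h1⟩ := hg n
    obtain ⟨h', hh', h2⟩ := hh n
    refine ⟨g' * h', L.mul_mem hg' hh', fun v hv => ?_⟩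
    rw [act_mul, act_mul, h2 v hv, h1 _ (by rw [act_length]; exact hv)]
  one_mem' := fun n => ⟨1, L.one_mem, fun v _ => rfl⟩
  inv_mem' := by
    intro g hg n
    obtain ⟨g', hg', h1⟩ := hg n
    refine ⟨g'⁻¹, L.inv_mem hg', fun v hv => ?_⟩
    have h2 := h1 (act g'⁻¹ v) (by rw [act_length]; exact hv)
    rw [act_act_inv] at h2
    have h3 := congrArg (act g⁻¹) h2
    rw [act_inv_act] at h3
    exact h3.symm

theorem mem_clS {L : Subgroup (treeAut X)} {g : treeAut X} :
    g ∈ clS L ↔ ∀ n : ℕ, ∃ h ∈ L, ∀ v : List X, v.length ≤ n → act g v = act h v := Iff.rfl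

theorem le_clS (L : Subgroup (treeAut X)) : L ≤ clS L := fun g hg _ => ⟨g, hg, fun _ _ => rfl⟩

theorem clS_mono {L M : Subgroup (treeAut X)} (h : L ≤ M) : clS L ≤ clS M := fun _ hg n => by
  obtain ⟨k, hk, h1⟩ := hg n
  exact ⟨k, h hk, h1⟩

theorem clS_clS (L : Subgroup (treeAut X)) : clS (clS L) ≤ clS L := fun _ hg n => by
  obtain ⟨k, hk, h1⟩ := hg n
  obtain ⟨l, hl, h2⟩ := hk n
  exact ⟨l, hl, fun v hv => (h1 v hv).trans (h2 v hv)⟩

/-- `emb` as a homomorphism -/
def embHom : (X → treeAut X) →* treeAut X where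
  toFun := emb
  map_one' := emb_one
  map_mul' k l := emb_mul k l

theorem embHom_apply (k : X → treeAut X) : embHom k = emb k := rfl

theorem St_anti [Nonempty X] {G : Subgroup (treeAut X)} {m n : ℕ} (h : m ≤ n) : St G n ≤ St G m :=
  fun _ hg => ⟨hg.1, fun v hv => fix_le hg.2 v (by omega)⟩

theorem sec_mem {D : ℕ} {P : Subgroup (Equiv.Perm {v : List X // v.length ≤ D})}
    {g : treeAut X} (hg : g ∈ GP D P) (v : List X) : sec g v ∈ GP D P := by
  intro w
  rw [sec_sec]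
  exact hg _

variable [DecidableEq X] [Fintype X] [Nonempty X] {D : ℕ}
  {P : Subgroup (Equiv.Perm {v : List X // v.length ≤ D})}

theorem emb_mem (hD : 1 ≤ D) {n : ℕ} (hn : D - 1 ≤ n) {k : X → treeAut X}
    (hk : ∀ x, k x ∈ St (GP D P) n) : emb k ∈ St (GP D P) (n + 1) := by
  have S : Setup (Multiplicative ℤ) (GP D P) (St (GP D P) (D - 1))
    (Nat.card ((GP D P).map (restr (D - 1))))
    (Nat.card (Equiv.Perm {v : List X // v.length ≤ D})) := setup D hD P
  have h1 : emb k ∈ St (GP D P) (D - 1) := by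
    obtain ⟨-, -, h, -⟩ := S
    exact h k fun x => St_anti hn (hk x)
  refine ⟨h1.1, fun v hv => ?_⟩
  cases v with
  | nil => simp at hv
  | cons y w =>
    rw [act_emb_cons, (hk y).2 w (by simpa using hv)]

theorem exists_emb {n : ℕ} {g : treeAut X} (hg : g ∈ St (GP D P) (n + 1)) :
    ∃ k : X → treeAut X, (∀ x, k x ∈ St (GP D P) n) ∧ g = emb k := by
  have hrt : ∀ x, rt g x = x := fun x => rt_eq (fix_le hg.2 [x] (by simp))
  refine ⟨fun x => sec g [x], fun x => ⟨sec_mem hg.1 _, fun v hv => ?_⟩, eq_emb hrt⟩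
  have h2 := act_cons g x v
  rw [hg.2 (x :: v) (by simp [hv]), List.cons.injEq] at h2
  exact h2.2.symm

theorem St_succ (hD : 1 ≤ D) {n : ℕ} (hn : D - 1 ≤ n) :
    St (GP D P) (n + 1) = (Subgroup.pi Set.univ fun _ : X => St (GP D P) n).map embHom := by
  ext g
  constructor
  · intro hg
    obtain ⟨k, hk, rfl⟩ := exists_emb hg
    exact ⟨k, fun x _ => hk x, rfl⟩
  · rintro ⟨k, hk, rfl⟩
    exact emb_mem hD hn fun x => hk x trivial

/-- the commutator subgroup of the next level stabilizer -/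
theorem comm_succ (hD : 1 ≤ D) {n : ℕ} (hn : D - 1 ≤ n) :
    ⁅St (GP D P) (n + 1), St (GP D P) (n + 1)⁆ =
      (Subgroup.pi Set.univ fun _ : X => ⁅St (GP D P) n, St (GP D P) n⁆).map embHom := by
  rw [St_succ hD hn, ← Subgroup.map_commutator]
  congr 1
  exact Subgroup.commutator_pi_pi_of_finite _ _

theorem step (hD : 1 ≤ D) {n : ℕ} (hn : D - 1 ≤ n) {N : ℕ}
    (h : ∀ g ∈ St (GP D P) n, g ^ N ∈ clS ⁅St (GP D P) n, St (GP D P) n⁆) :
    ∀ g ∈ St (GP D P) (n + 1), g ^ N ∈ clS ⁅St (GP D P) (n + 1), St (GP D P) (n + 1)⁆ := by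
  intro g hg
  obtain ⟨k, hk, rfl⟩ := exists_emb hg
  rw [← embHom_apply, ← map_pow, embHom_apply]
  intro m
  choose c hc hc2 using fun x => h (k x) (hk x) m
  refine ⟨emb c, ?_, fun v hv => ?_⟩
  · rw [comm_succ hD hn]
    exact ⟨c, fun x _ => hc x, rfl⟩
  · cases v with
    | nil => rw [act_nil, act_nil]
    | cons y w =>
      rw [act_emb_cons, act_emb_cons, Pi.pow_apply, hc2 y w (by simp at hv; omega)]

/-- all deep level stabilizers, with the same exponent -/
theorem levels (hD : 1 ≤ D) (P : Subgroup (Equiv.Perm {v : List X // v.length ≤ D})) :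
    ∃ N : ℕ, 0 < N ∧ ∀ n, D - 1 ≤ n → ∀ g ∈ St (GP D P) n,
      g ^ N ∈ clS ⁅St (GP D P) n, St (GP D P) n⁆ := by
  obtain ⟨N, hN, h⟩ := torsion D hD P
  refine ⟨N, hN, fun n hn => ?_⟩
  induction n, hn using Nat.le_induction with
  | base => exact h
  | succ n hn ih => exact step hD hn ih

/-- all open subgroups -/
theorem opens (hD : 1 ≤ D) (P : Subgroup (Equiv.Perm {v : List X // v.length ≤ D}))
    {n : ℕ} {H : Subgroup (treeAut X)} (h1 : St (GP D P) n ≤ H) (h2 : H ≤ GP D P) :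
    ∃ M : ℕ, 0 < M ∧ ∀ g ∈ H, g ^ M ∈ clS ⁅H, H⁆ := by
  obtain ⟨N, hN, h⟩ := levels hD P
  set n' := max n (D - 1) with hn'
  have fin1 : Finite {v : List X // v.length ≤ n'} := finite_words _
  refine ⟨Nat.card (Equiv.Perm {v : List X // v.length ≤ n'}) * N,
    Nat.mul_pos Nat.card_pos hN, fun g hg => ?_⟩
  have h3 : g ^ Nat.card (Equiv.Perm {v : List X // v.length ≤ n'}) ∈ St (GP D P) n' := by
    rw [mem_St_iff]
    refine ⟨(GP D P).pow_mem (h2 hg) _, ?_⟩
    rw [map_pow]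
    exact pow_card_eq_one'
  rw [pow_mul]
  have h4 : St (GP D P) n' ≤ H := (St_anti (le_max_left _ _)).trans h1
  exact clS_mono (Subgroup.commutator_mono h4 h4) (h n' (le_max_right _ _) _ h3)

end Pool.Agent.KS6_4.FT
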